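import Pool.Agent.T2H35.Chev.Main
import Pool.Agent.T2H67.Chev.Final

/-!
# Vanishing of the second cohomology of `p`-adic Chevalley groups with adjoint coefficients

Let `P` be an irreducible reduced crystallographic root system of rank at least two, `b` a base
of `P`, `L` a Lie ring with a Chevalley basis `B` of type `P` (the Chevalley Lie algebra over
`ℤ`), `p` a prime number with `p > |P|` and `p > 60`.

Let `Γ` be a compact group with a continuous homomorphism `Ad : Γ → GL(L ⊗ ℤ_p)` whose kernel is
finite of order prime to `p` and whose image is the closed subgroup generated by the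
`x_i(t) = exp (t ad e_i)`, for `i` a root and `t ∈ ℤ_p`.  For the simply connected Chevalley group
scheme `X` of type `P`, the group `Γ = X(ℤ_p)` with its adjoint representation has these
properties (as have the groups of `ℤ_p`-points of the other Chevalley groups of type `P` up to
the passage to the subgroup generated by the root subgroups, and the closed subgroup generated by
the `x_i(t)` in `GL(L ⊗ ℤ_p)` itself).

Then `H²(Γ, L ⊗ 𝔽_p) = 0`: every locally constant `2`-cocycle is the coboundary of a locally
constant `1`-cochain.
-/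

namespace Pool.Agent.Results.MP_4ba0d5_al.AdjointVanishing

open Module Pool.Agent.T2H35.Chev

theorem result {ι V W : Type} [Fintype ι] [DecidableEq ι] [AddCommGroup V] [Module ℚ V]
    [AddCommGroup W] [Module ℚ W] (P : RootPairing ι ℚ V W) [P.IsCrystallographic] [P.IsReduced]
    [P.IsRootSystem] [P.IsIrreducible] (hrank : 2 ≤ Module.finrank ℚ V) (b : P.Base)
    {L : Type} [LieRing L] (B : ChevalleyBasis P b L)
    (p : ℕ) [Fact p.Prime] (hp : Fintype.card ι < p) (hp' : 60 < p)
    {Γ : Type} [Group Γ] [TopologicalSpace Γ] [IsTopologicalGroup Γ] [CompactSpace Γ]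
    (Ad : Γ →* GL (b.support ⊕ ι) ℤ_[p]) (hAd : Continuous Ad)
    (hrange : Ad.range = (B.Gad ℤ_[p]).topologicalClosure)
    (hfin : Finite Ad.ker) (hker : (Nat.card Ad.ker).Coprime p)
    (f : Γ → Γ → ((b.support ⊕ ι) → ZMod p))
    (hcont : IsLocallyConstant (fun x : Γ × Γ => f x.1 x.2))
    (hf : IsCocycle ((rhoGL (PadicInt.toZMod (p := p))).comp Ad) f) :
    ∃ c : Γ → ((b.support ⊕ ι) → ZMod p), IsLocallyConstant c ∧
      IsCobdOf ((rhoGL (PadicInt.toZMod (p := p))).comp Ad) f c :=
  main_of P hrank b B p hp'
    (fun n hn => Pool.Agent.T2H67.Chev.exists_CG P b B p n hn hp hp')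
    Ad hAd hrange hfin hker f hcont hf

end Pool.Agent.Results.MP_4ba0d5_al.AdjointVanishing
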